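import Pool.Agent.Lib.MP_7cef9e_pr.Rig5

/-!
# Spherical integrals never converge to the R-transform on the upper half-plane, unless the law
is a point mass

For every compactly supported law `μ` that is not a point mass, every holomorphic continuation `R`
of its R-transform to the upper half-plane, every norm-bounded sequence of Hermitian matrices and
every subsequence, the points of the upper half-plane where `f_n(z)` fails to tend to `R z` form a
set of positive area.
-/

namespace Pool.Agent.Results.MP_7cef9e_pr.RigidityNonDirac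

open Pool.Agent.Lib.MP_7cef9e_pr MeasureTheory Filter Topology

theorem result (μ : Measure ℝ) [IsProbabilityMeasure μ] (hμ : IsCompact μ.support)
    (hnd : ∀ c : ℝ, μ ≠ Measure.dirac c) (R : ℂ → ℂ) (hR : IsRTransform μ R)
    (hRd : DifferentiableOn ℂ R {z | 0 < z.im})
    (E : (n : ℕ) → Matrix (Fin n) (Fin n) ℂ) (hE : ∀ n, (E n).IsHermitian) (M : ℝ)
    (hM : ∀ n, ‖Matrix.toEuclideanCLM (n := Fin n) (𝕜 := ℂ) (E n)‖ ≤ M)
    (φ : ℕ → ℕ) (hφ : StrictMono φ) :
    0 < volume {z : ℂ | 0 < z.im ∧
      ¬ Tendsto (fun k : ℕ => logDerivI (φ k) (E (φ k)) z) atTop (𝓝 (R z))} := by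
  rw [pos_iff_ne_zero]
  intro h0
  have hd : ∀ k, 0 < φ (k + 1) := fun k => (Nat.succ_pos k).trans_le (hφ.id_le (k + 1))
  have hM0 : 0 ≤ M := (norm_nonneg _).trans (hM 0)
  choose u hu using fun k => ridge_spherical_pos (hd k) (hE (φ (k + 1))) (M := M + 1)
    ((hM _).trans (by linarith))
  refine hnd _ (eq_dirac_of_rTransform hμ hR (c := R Complex.I) fun z hz =>
    rigid hd _ u (by linarith) hu hRd ?_ hz (by simp))
  filter_upwards [measure_eq_zero_iff_ae_notMem.mp h0] with w hw hw0
  exact (tendsto_add_atTop_iff_nat 1).mpr (not_not.mp fun h => hw ⟨hw0, h⟩)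

end Pool.Agent.Results.MP_7cef9e_pr.RigidityNonDirac
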