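import Pool.Agent.Lib.MP_7cef9e_pr.Main

/-!
# Spherical integrals do not converge to the R-transform on the whole upper half-plane

Counterexample: the semicircle law (freely infinitely divisible, `R(z) = z`), and diagonal
matrices whose eigenvalues are its quantiles (no outliers).  For `Re z - |Im z| ≥ 12` one has
`f_n(z) → 2 - 1/z ≠ z`.
-/

namespace Pool.Agent.Results.MP_7cef9e_pr.SemicircleCounterexample

open Pool.Agent.Lib.MP_7cef9e_pr MeasureTheory Filter Topology

theorem result :
    IsProbabilityMeasure semicircle ∧ semicircle.support = Set.Icc (-2) 2 ∧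
    IsFreelyInfDiv semicircle ∧ IsRTransform semicircle (fun z => z) ∧
    ∃ lam : (n : ℕ) → Fin n → ℝ,
      (∀ n i, lam n i ∈ Set.Icc (-2 : ℝ) 2) ∧
      (∀ φ : BoundedContinuousFunction ℝ ℝ,
        Tendsto (fun n : ℕ => (n : ℝ)⁻¹ * ∑ i : Fin n, φ (lam n i)) atTop
          (𝓝 (∫ x, φ x ∂semicircle))) ∧
      (∀ z : ℂ, 12 ≤ z.re - |z.im| →
        Tendsto (fun n : ℕ => logDerivI n (Matrix.diagonal fun i => (lam n i : ℂ)) z) atTop
          (𝓝 (2 - 1 / z))) ∧
      ∃ z : ℂ, 0 < z.im ∧
        ¬ Tendsto (fun n : ℕ => logDerivI n (Matrix.diagonal fun i => (lam n i : ℂ)) z) atTop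
          (𝓝 z) := by
  refine ⟨isProb_semicircle, support_semicircle, isFreelyInfDiv_semicircle,
    isRTransform_semicircle, lamQ, lamQ_mem, fun φ => tendsto_empirical φ φ.continuous,
    fun z hz => tendsto_logDerivI hz, 13 + Complex.I, by simp, fun h => ?_⟩
  have h1 := tendsto_nhds_unique h (tendsto_logDerivI (by norm_num))
  have h2 : (13 + Complex.I : ℂ) ≠ 0 := fun h0 => by simpa using congrArg Complex.im h0
  have h3 : (12 + Complex.I : ℂ) ^ 2 = 0 := by
    field_simp at h1
    linear_combination h1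
  have h4 := congrArg Complex.im (pow_eq_zero_iff two_ne_zero |>.mp h3)
  simp at h4

end Pool.Agent.Results.MP_7cef9e_pr.SemicircleCounterexample
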